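import Pool.Agent.Helper52.GPM.S

/-!
# Gilbert-Pollak, chapter MSTF, module xStep: one exchange step
-/

namespace Pool.Agent.Helper49.GPM

open Relation Classical Pool.Agent.Helper18.GP Pool.Agent.Helper52.GPM

private theorem mono_xStep {N : ℕ} {r s : Fin N → Fin N → Prop} (h : ∀ x y, r x y → EqvGen s x y)
    {x y : Fin N} (hr : EqvGen r x y) : EqvGen s x y := by
  induction hr with
  | rel x y h1 => exact h x y h1
  | refl x => exact EqvGen.refl x
  | symm x y _ ih => exact EqvGen.symm _ _ ih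
  | trans x y z _ _ ih1 ih2 => exact EqvGen.trans _ _ _ ih1 ih2

private theorem inv_xStep {N : ℕ} {r : Fin N → Fin N → Prop} {K : Fin N → Prop}
    (h : ∀ x y, r x y → (K x ↔ K y)) {x y : Fin N} (hr : EqvGen r x y) : K x ↔ K y := by
  induction hr with
  | rel x y h1 => exact h x y h1
  | refl x => exact Iff.rfl
  | symm x y _ ih => exact ih.symm
  | trans x y z _ _ ih1 ih2 => exact ih1.trans ih2

theorem mod_xStep (hC : xLoop ∧ xEx ∧ xSplit ∧ xBridge ∧ xExch) (hBo : xBott) : xStep := by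
  obtain ⟨-, -, hSp, hBr, hEx⟩ := hC
  intro N V w F hw m m' hm hm' e he he'
  obtain ⟨a, b⟩ := e
  have hab := hm.1.1 _ he
  obtain ⟨ha, hb⟩ := hab
  simp only at ha hb
  have hbr := hBr N V w F hw m hm a b he
  -- the component of `a`
  have hcl : ∃ f ∈ m', w f.1 f.2 ≤ w a b ∧
      ¬ (EqvGen (mr (m.erase (a, b)) F) f.1 a ↔ EqvGen (mr (m.erase (a, b)) F) f.2 a) := by
    by_contra hc
    push Not at hc
    have h1 := hBo N V w F hw m' hm' a ha b hb
    have h2 := inv_xStep (K := fun x => EqvGen (mr (m.erase (a, b)) F) x a) (fun x y hxy => by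
      rcases hxy with ⟨h3, h4⟩ | h3
      · exact (hc (x, y) h3 h4)
      · have h5 : EqvGen (mr (m.erase (a, b)) F) x y := EqvGen.rel _ _ (Or.inr h3)
        exact ⟨fun h => EqvGen.trans _ _ _ (EqvGen.symm _ _ h5) h,
          fun h => EqvGen.trans _ _ _ h5 h⟩) h1
    exact hbr (EqvGen.symm _ _ (h2.1 (EqvGen.refl _)))
  obtain ⟨⟨c, c'⟩, hf, hfw, hfK⟩ := hcl
  simp only at hfw hfK
  obtain ⟨hc, hc'⟩ := hm'.1.1 _ hf
  simp only at hc hc'
  have hfm : (c, c') ∉ m := by
    intro h
    have h1 : (c, c') ∈ m.erase (a, b) := Finset.mem_erase.2 ⟨fun h2 => he' (h2 ▸ hf), h⟩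
    have h2 : EqvGen (mr (m.erase (a, b)) F) c c' := EqvGen.rel _ _ (Or.inl h1)
    exact hfK ⟨fun h => EqvGen.trans _ _ _ (EqvGen.symm _ _ h2) h,
      fun h => EqvGen.trans _ _ _ h2 h⟩
  have hcc : c ≠ c' := by
    intro h
    subst h
    exact hfK Iff.rfl
  have hmono : ∀ x y, EqvGen (mr (m.erase (a, b)) F) x y →
      EqvGen (mr (insert (c, c') (m.erase (a, b))) F) x y := by
    intro x y h
    refine mono_xStep (fun x y hxy => EqvGen.rel _ _ ?_) h
    rcases hxy with h | h
    · exact Or.inl (Finset.mem_insert_of_mem h)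
    · exact Or.inr h
  have hfr : EqvGen (mr (insert (c, c') (m.erase (a, b))) F) c c' :=
    EqvGen.rel _ _ (Or.inl (Finset.mem_insert_self _ _))
  have hkey : w a b ≤ w c c' ∧ EqvGen (mr (insert (c, c') (m.erase (a, b))) F) a b := by
    by_cases hK : EqvGen (mr (m.erase (a, b)) F) c a
    · have hK' : ¬ EqvGen (mr (m.erase (a, b)) F) c' a := fun h => hfK ⟨fun _ => h, fun _ => hK⟩
      have h1 := (hSp N V F m hm.1 a b he c' hc').resolve_left hK'
      refine ⟨hEx N V w F hw m hm a b he c hc c' hc' hK h1, ?_⟩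
      exact EqvGen.trans _ _ _ (hmono _ _ (EqvGen.symm _ _ hK))
        (EqvGen.trans _ _ _ hfr (hmono _ _ h1))
    · have hK' : EqvGen (mr (m.erase (a, b)) F) c' a := by
        by_contra h
        exact hfK ⟨fun h1 => absurd h1 hK, fun h1 => absurd h1 h⟩
      have h1 := (hSp N V F m hm.1 a b he c hc).resolve_left hK
      refine ⟨?_, ?_⟩
      · rw [hw.sy c hc c' hc']
        exact hEx N V w F hw m hm a b he c' hc' c hc hK' h1
      · exact EqvGen.trans _ _ _ (hmono _ _ (EqvGen.symm _ _ hK'))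
          (EqvGen.trans _ _ _ (EqvGen.symm _ _ hfr) (hmono _ _ h1))
  have hweq : w c c' = w a b := le_antisymm hfw hkey.1
  refine ⟨(c, c'), hf, hfm, hweq, ⟨⟨?_, ?_⟩, ?_, ?_⟩⟩
  · intro e he1
    rcases Finset.mem_insert.1 he1 with h | h
    · rw [h]
      exact ⟨hc, hc'⟩
    · exact hm.1.1 _ (Finset.mem_of_mem_erase h)
  · intro x hx y hy
    refine mono_xStep (fun x y hxy => ?_) (hm.1.2 x hx y hy)
    rcases hxy with h | h
    · by_cases h1 : (x, y) = (a, b)
      · obtain ⟨rfl, rfl⟩ := Prod.mk.inj h1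
        exact hkey.2
      · exact EqvGen.rel _ _ (Or.inl (Finset.mem_insert_of_mem (Finset.mem_erase.2 ⟨h1, h⟩)))
    · exact EqvGen.rel _ _ (Or.inr h)
  · have hnot : (c, c') ∉ m.erase (a, b) := fun h => hfm (Finset.mem_of_mem_erase h)
    have h1 : mw w (insert (c, c') (m.erase (a, b))) = w c c' + mw w (m.erase (a, b)) := by
      rw [mw, mw, Finset.sum_insert hnot]
    have h2 : w a b + mw w (m.erase (a, b)) = mw w m := by
      rw [mw, mw]
      exact Finset.add_sum_erase m (fun e => w e.1 e.2) he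
    rw [h1, hweq, h2]
    exact hm.2.1
  · intro e he1
    rcases Finset.mem_insert.1 he1 with h | h
    · rw [h]
      exact hcc
    · exact hm.2.2 _ (Finset.mem_of_mem_erase h)

end Pool.Agent.Helper49.GPM
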